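import Pool.Agent.helper52.T1.SpecF

/-! Row LYC of project T1 (MP_07c750_an): layer cake. -/

open MeasureTheory

namespace Pool.Agent.T1

theorem LYC_anti {Ω : Type} [Fintype Ω] (P V : Ω → ℝ) (hP : ∀ x, 0 ≤ P x) :
    Antitone fun a : ℝ => ∑ x ∈ Finset.univ.filter (fun x => a ≤ V x), P x := by
  intro a b hab
  refine Finset.sum_le_sum_of_subset_of_nonneg ?_ fun i _ _ => hP i
  intro i hi
  rw [Finset.mem_filter] at hi ⊢
  exact ⟨hi.1, hab.trans hi.2⟩

theorem LYC_one (p v : ℝ) (hv : 0 ≤ v ∧ v ≤ 1) :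
    ∫ a in (0 : ℝ)..1, (if a ≤ v then p else 0) = p * v := by
  have h1 : (fun a : ℝ => if a ≤ v then p else 0) = Set.indicator {a | a ≤ v} fun _ => p := by
    funext a
    by_cases h : a ≤ v
    · rw [if_pos h, Set.indicator_of_mem (show a ∈ {a | a ≤ v} from h)]
    · rw [if_neg h, Set.indicator_of_notMem (show a ∉ {a | a ≤ v} from h)]
  rw [h1, intervalIntegral.integral_indicator ⟨hv.1, hv.2⟩, intervalIntegral.integral_const, smul_eq_mul]
  ring

theorem LYC_cake {Ω : Type} [Fintype Ω] (P V : Ω → ℝ) (hP : ∀ x, 0 ≤ P x) (hV : ∀ x, 0 ≤ V x ∧ V x ≤ 1) :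
    ∑ x, P x * V x = ∫ a in (0 : ℝ)..1, ∑ x ∈ Finset.univ.filter (fun x => a ≤ V x), P x := by
  simp only [Finset.sum_filter]
  rw [intervalIntegral.integral_finsetSum]
  · exact Finset.sum_congr rfl fun x _ => (LYC_one (P x) (V x) (hV x)).symm
  · intro i _
    refine Antitone.intervalIntegrable ?_
    intro a b hab
    by_cases hb : b ≤ V i
    · have ha : a ≤ V i := hab.trans hb
      simp only [if_pos hb, if_pos ha, le_refl]
    · simp only [if_neg hb]
      split_ifs
      · exact hP i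
      · exact le_refl 0

theorem LYC_proof : LYC_stmt := by
  intro Ω _ P V W s ε hP hV hW hε hs hs1 hsum hkey
  rw [LYC_cake P V hP hV, LYC_cake P W hP hW]
  set gV : ℝ → ℝ := fun a : ℝ => ∑ x ∈ Finset.univ.filter (fun x => a ≤ V x), P x with hgV
  set gW : ℝ → ℝ := fun a : ℝ => ∑ x ∈ Finset.univ.filter (fun x => a ≤ W x), P x with hgW
  have aV : Antitone gV := LYC_anti P V hP
  have aW : Antitone gW := LYC_anti P W hP
  have iV : ∀ a b : ℝ, IntervalIntegrable gV volume a b := fun a b => aV.intervalIntegrable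
  have iW : ∀ a b : ℝ, IntervalIntegrable gW volume a b := fun a b => aW.intervalIntegrable
  have hk : ∀ a b : ℝ, s ≤ a + b → gV a + gW b ≤ 1 + ε := hkey
  have hV0 : gV 0 = ∑ x, P x := by
    rw [hgV]
    refine Finset.sum_congr ?_ fun _ _ => rfl
    exact Finset.filter_true_of_mem fun x _ => (hV x).1
  have hW0 : gW 0 = ∑ x, P x := by
    rw [hgW]
    refine Finset.sum_congr ?_ fun _ _ => rfl
    exact Finset.filter_true_of_mem fun x _ => (hW x).1
  have e1 : (∫ a in (0 : ℝ)..1, gV a) = (∫ a in (0 : ℝ)..s, gV a) + ∫ a in s..1, gV a :=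
    (intervalIntegral.integral_add_adjacent_intervals (iV 0 s) (iV s 1)).symm
  have e2 : (∫ a in (0 : ℝ)..1, gW a) = (∫ a in (0 : ℝ)..s, gW a) + ∫ a in s..1, gW a :=
    (intervalIntegral.integral_add_adjacent_intervals (iW 0 s) (iW s 1)).symm
  have e3 : (∫ a in (0 : ℝ)..s, gW (s - a)) = ∫ a in (0 : ℝ)..s, gW a := by
    rw [intervalIntegral.integral_comp_sub_left (fun x => gW x) s, sub_self, sub_zero]
  have iW' : IntervalIntegrable (fun a => gW (s - a)) volume 0 s := by
    refine Monotone.intervalIntegrable ?_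
    intro a b hab
    exact aW (by linarith)
  have b1 : (∫ a in (0 : ℝ)..s, gV a) + ∫ a in (0 : ℝ)..s, gW (s - a) ≤ s * (1 + ε) := by
    rw [← intervalIntegral.integral_add (iV 0 s) iW']
    have h1 : ∫ a in (0 : ℝ)..s, (gV a + gW (s - a)) ≤ ∫ _ in (0 : ℝ)..s, (1 + ε) :=
      intervalIntegral.integral_mono_on hs ((iV 0 s).add iW') intervalIntegrable_const fun x _ =>
        hk x (s - x) (by linarith)
    rw [intervalIntegral.integral_const, sub_zero, smul_eq_mul] at h1
    exact h1
  have b2 : ∫ a in s..1, gV a ≤ (1 - s) * (2 * ε) := by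
    have h1 : ∫ a in s..1, gV a ≤ ∫ _ in s..1, (2 * ε) :=
      intervalIntegral.integral_mono_on hs1 (iV s 1) intervalIntegrable_const fun x hx => by
        have h2 := hk x 0 (by linarith [hx.1])
        rw [hW0] at h2
        linarith
    rw [intervalIntegral.integral_const, smul_eq_mul] at h1
    exact h1
  have b3 : ∫ a in s..1, gW a ≤ (1 - s) * (2 * ε) := by
    have h1 : ∫ a in s..1, gW a ≤ ∫ _ in s..1, (2 * ε) :=
      intervalIntegral.integral_mono_on hs1 (iW s 1) intervalIntegrable_const fun x hx => by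
        have h2 := hk 0 x (by linarith [hx.1])
        rw [hV0] at h2
        linarith
    rw [intervalIntegral.integral_const, smul_eq_mul] at h1
    exact h1
  rw [e1, e2]
  have h3 : 0 ≤ s * ε := mul_nonneg hs hε
  nlinarith [b1, b2, b3, e3, h3]

end Pool.Agent.T1
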